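import Mathlib

set_option autoImplicit false

namespace Pool.Agent.Results.MP_47dce7_gt.Main

open Set Filter Topology

universe u v

def SHD (Y : Type u) [TopologicalSpace Y] : Prop :=
  ∀ U : ℕ → Set Y, (∀ n, IsOpen (U n) ∧ (U n).Nonempty) → ∃ x : ℕ → Y, (∀ n, x n ∈ U n) ∧
    ¬ ∃ (φ : ℕ → ℕ) (p : Y), StrictMono φ ∧ Tendsto (x ∘ φ) atTop (𝓝 p)

variable {X : Type u} [TopologicalSpace X]

lemma osc {s : ℕ → ℝ} (hs : Tendsto s atTop atTop) : ∃ g : C(ℝ, ℝ), (∀ x, g x ∈ Icc (0 : ℝ) 1) ∧
    ∀ c, ¬ Tendsto (fun n => g (s n)) atTop (𝓝 c) := by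
  obtain ⟨φ, h1, h2⟩ := strictMono_subseq_of_tendsto_atTop hs
  have h3 (a : ℕ) : Tendsto (fun n => 2 * n + a) atTop atTop :=
    tendsto_atTop_mono (fun n => by simp only [id]; omega) tendsto_id
  have h4 (a : ℕ) : IsClosed (range fun n => s (φ (2 * n + a))) :=
    (isProperMap_iff_tendsto_cocompact.2 ⟨continuous_of_discreteTopology, by
      rw [cocompact_eq_cofinite, Nat.cofinite_eq_atTop]
      exact ((hs.comp h1.tendsto_atTop).comp (h3 a)).mono_right
        atTop_le_cocompact⟩).isClosedMap.isClosed_range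
  obtain ⟨g, k0, k1, k2⟩ := exists_continuous_zero_one_of_isClosed (h4 0) (h4 1) (by
    rw [disjoint_range_iff]
    exact fun a b e => by have := h2.injective e; omega)
  refine ⟨g, k2, fun c h => zero_ne_one' ℝ ?_⟩
  have e0 := ((h.comp h1.tendsto_atTop).comp (h3 0)).congr fun n => k0 (mem_range_self n)
  have e1 := ((h.comp h1.tendsto_atTop).comp (h3 1)).congr fun n => k1 (mem_range_self n)
  exact (tendsto_nhds_unique tendsto_const_nhds e0).trans (tendsto_nhds_unique e1 tendsto_const_nhds)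

lemma noseq {f : StoneCech X → ℝ} (hf : Continuous f) (h0 : ∀ y, 0 ≤ f y)
    (h1 : ∀ x, 0 < f (stoneCechUnit x)) {p : StoneCech X} (hp : f p = 0) {y : ℕ → StoneCech X}
    (hy : ∀ n, y n ≠ p) : ¬ Tendsto y atTop (𝓝 p) := fun h => by
  choose u u0 u1 u2 using fun n => exists_continuous_zero_one_of_isClosed isClosed_singleton
    isClosed_singleton (disjoint_singleton.2 (hy n).symm)
  have k (n z) : ‖(1 / 2 : ℝ) ^ n * u n z‖ ≤ (1 / 2) ^ n := by
    rw [Real.norm_of_nonneg (mul_nonneg (by positivity) (u2 n z).1)]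
    exact mul_le_of_le_one_right (by positivity) (u2 n z).2
  let F (z) := f z + ∑' n, (1 / 2 : ℝ) ^ n * u n z
  have F1 : Continuous F := hf.add (continuous_tsum (by fun_prop) summable_geometric_two k)
  have k' (n z) : 0 ≤ (1 / 2 : ℝ) ^ n * u n z := mul_nonneg (by positivity) (u2 n z).1
  have F2 (x) : F (stoneCechUnit x) ≠ 0 := (add_pos_of_pos_of_nonneg (h1 x) (tsum_nonneg (k' · _))).ne'
  have F3 (n) : 0 < F (y n) := add_pos_of_nonneg_of_pos (h0 _)
    ((summable_geometric_two.of_norm_bounded (k · _)).tsum_pos (k' · _) n (by simp [u1 n rfl]))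
  have F4 : F p = 0 := by simp [F, hp, fun n => u0 n rfl]
  obtain ⟨g, g1, g2⟩ := osc (tendsto_inv_nhdsGT_zero.comp (tendsto_nhdsWithin_iff.2
    ⟨F4 ▸ (F1.tendsto p).comp h, .of_forall F3⟩))
  have c : Continuous fun x : X => (⟨g (F (stoneCechUnit x))⁻¹, g1 _⟩ : Icc (0 : ℝ) 1) :=
    (g.2.comp ((F1.comp continuous_stoneCechUnit).inv₀ F2)).subtype_mk _
  have c' := continuous_subtype_val.comp (continuous_stoneCechExtend c)
  refine g2 _ (((c'.tendsto p).comp h).congr fun n => ?_)
  refine tendsto_nhds_unique_of_frequently_eq c'.continuousAt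
    (g.2.continuousAt.comp (F1.continuousAt.inv₀ (F3 n).ne')) ?_
  exact (mem_closure_iff_frequently.1 (denseRange_stoneCechUnit (y n))).mono
    (forall_mem_range.2 fun x => congrArg Subtype.val (stoneCechExtend_stoneCechUnit c x))

lemma zero {κ : Type v} {e : X → κ → ℝ} (he : IsClosedEmbedding e) {p : StoneCech X}
    (hp : p ∉ range stoneCechUnit) : ∃ f : StoneCech X → ℝ, Continuous f ∧ (∀ y, 0 ≤ f y) ∧
      (∀ x, 0 < f (stoneCechUnit x)) ∧ f p = 0 := by
  by_contra! h
  have : (comap (stoneCechUnit (α := X)) (𝓝 p)).NeBot :=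
    comap_neBot fun _ => denseRange_stoneCechUnit.mem_nhds
  let 𝒰 := Ultrafilter.of (comap stoneCechUnit (𝓝 p) : Filter X)
  have h1 : Tendsto stoneCechUnit (𝒰 : Filter X) (𝓝 p) := tendsto_iff_comap.2 (Ultrafilter.of_le _)
  have h2 (i) : ∃ c, Tendsto (fun x => e x i) 𝒰 (𝓝 c) := by
    have k (x) : 0 < 1 + |e x i| := by positivity
    have c : Continuous fun x : X => (⟨(1 + |e x i|)⁻¹, (inv_pos.2 (k x)).le,
        inv_le_one_of_one_le₀ (le_add_of_nonneg_right (abs_nonneg _))⟩ : Icc (0 : ℝ) 1) :=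
      ((continuous_const.add ((continuous_apply i).comp he.continuous).abs).inv₀
        fun x => (k x).ne').subtype_mk _
    have c' := continuous_subtype_val.comp (continuous_stoneCechExtend c)
    have h2 := (((c'.tendsto p).comp h1).inv₀ (h _ c' (fun y => (stoneCechExtend c y).2.1)
      fun x => by simpa [stoneCechExtend_stoneCechUnit] using k x)).eventually_le_const (lt_add_one _)
    obtain ⟨c, -, h3⟩ := isCompact_Icc.ultrafilter_le_nhds (𝒰.map fun x => e x i)
      (le_principal_iff.2 (mem_map.2 (mem_of_superset h2 fun x hx => abs_le.1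
        ((le_add_of_nonneg_left zero_le_one).trans (by simpa [stoneCechExtend_stoneCechUnit] using hx)))))
    exact ⟨c, h3⟩
  choose c hc using h2
  obtain ⟨x, rfl⟩ := he.isClosed_range.mem_of_tendsto (tendsto_pi_nhds.2 hc) (.of_forall mem_range_self)
  exact hp ⟨x, tendsto_nhds_unique ((continuous_stoneCechUnit.tendsto x).comp
    (he.tendsto_nhds_iff.2 (tendsto_pi_nhds.2 hc))) h1⟩

theorem result (X : Type u) [TopologicalSpace X] [T35Space X] (κ : Type v) (e : X → κ → ℝ)
    (he : IsClosedEmbedding e) (_ : ¬ CompactSpace X) :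
    SHD ((range (stoneCechUnit : X → StoneCech X))ᶜ : Set (StoneCech X)) := by
  intro U hU
  have h1 (n) : (U n).Infinite := fun h => by
    obtain ⟨p, hp⟩ := (hU n).2
    obtain ⟨W, h1, h2⟩ := isOpen_induced_iff.1 ((hU n).1.sdiff ((h.subset sdiff_subset).isClosed :
      IsClosed (U n \ {p})))
    have h3 (q : ((range (stoneCechUnit : X → StoneCech X))ᶜ : Set _)) : q.1 ∈ W ↔ q = p := by
      rw [← mem_preimage, h2]
      by_cases k : q = p <;> simp [k, hp]
    obtain ⟨f, f1, f2, f3, f4⟩ := zero he p.2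
    obtain ⟨g, g0, g1, g2⟩ := exists_continuous_zero_one_of_isClosed isClosed_singleton
      h1.isClosed_compl (disjoint_singleton_left.2 (not_not.2 ((h3 p).2 rfl)))
    have c : Continuous fun y => f y + g y := f1.add g.2
    choose x hx using fun k : ℕ => denseRange_stoneCechUnit.exists_mem_open
      (isOpen_lt c continuous_const) ⟨p.1, show f p + g p < 1 / (k + 1 : ℝ) by
        rw [f4, g0 rfl]; simpa using k.cast_add_one_pos⟩
    refine noseq f1 f2 f3 f4 (y := fun k => stoneCechUnit (x k)) (fun k e => p.2 ⟨_, e⟩)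
      (isCompact_univ.tendsto_nhds_of_unique_mapClusterPt (by simp) fun q _ hq => ?_)
    have h4 : f q + g q ≤ 0 := le_of_not_gt fun k => by
      obtain ⟨r, k1, k2⟩ := exists_between k
      obtain ⟨m, k3, k4⟩ := ((hq.frequently ((isOpen_lt continuous_const c).mem_nhds k2)).and_eventually
        (tendsto_one_div_add_atTop_nhds_zero_nat.eventually_lt_const k1)).exists
      exact (k3.trans (hx m)).not_gt k4
    have h5 : q ∉ range stoneCechUnit := fun ⟨z, hz⟩ => by linarith [hz ▸ f3 z, (g2 q).1]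
    refine congrArg Subtype.val ((h3 ⟨q, h5⟩).1 (by_contra fun k => ?_))
    linarith [f2 q, show g q = 1 from g1 k]
  obtain ⟨x, h2, h3⟩ : ∃ x : ℕ → _, (∀ n, x n ∈ U n) ∧ x.Injective := by
    classical
    choose g h2 h3 using fun n s => (h1 n).exists_notMem_finset s
    let l : ℕ → Finset _ := Nat.rec ∅ fun n s => insert (g n s) s
    have h4 : Monotone l := monotone_nat_of_le_succ fun n => Finset.subset_insert _ _
    exact ⟨fun n => g n (l n), fun n => h2 _ _, Function.Injective.of_lt_imp_ne fun a b h e =>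
      h3 b (l b) (e ▸ h4 h (Finset.mem_insert_self _ _))⟩
  refine ⟨x, h2, fun ⟨φ, p, h4, h5⟩ => ?_⟩
  obtain ⟨f, f1, f2, f3, f4⟩ := zero he p.2
  obtain ⟨N, hN⟩ := eventually_atTop.1 (Nat.cofinite_eq_atTop ▸
    (h3.comp h4.injective).tendsto_cofinite.eventually (eventually_cofinite_ne p))
  exact noseq f1 f2 f3 f4 (fun n e => hN (n + N) le_add_self (Subtype.ext e))
    ((continuous_subtype_val.tendsto p).comp (h5.comp (tendsto_add_atTop_nat N)))

end Pool.Agent.Results.MP_47dce7_gt.Main
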